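import Mathlib

set_option autoImplicit false

namespace Pool.Agent.Results.MP_d8b6f8_al.NotDClass

/-- A class of groups: a predicate on (small) groups. -/
abbrev GroupClass := (G : Type) → [Group G] → Prop

/-- A group is primitive if it has a maximal subgroup with trivial core. -/
def IsPrim (G : Type) [Group G] : Prop := ∃ M : Subgroup G, IsCoatom M ∧ M.normalCore = ⊥

/-- `X` is a Schunck class of finite soluble groups: it is closed under isomorphism and
epimorphic images, and contains every finite soluble group all of whose primitive epimorphic images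
lie in `X`. -/
structure IsSchunck (X : GroupClass) : Prop where
  soluble : ∀ (G : Type) [Group G], X G → Finite G ∧ Group.IsSolvable G
  iso : ∀ (G H : Type) [Group G] [Group H], Nonempty (G ≃* H) → X G → X H
  quot : ∀ (G : Type) [Group G] (N : Subgroup G) [N.Normal], X G → X (G ⧸ N)
  prim : ∀ (G : Type) [Group G] [Finite G], Group.IsSolvable G →
    (∀ (N : Subgroup G) [N.Normal], IsPrim (G ⧸ N) → X (G ⧸ N)) → X G

/-- The class product `XY`: finite soluble groups `G` with a normal subgroup `N` in `X` such that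
`G/N` is in `Y`. -/
def prodClass (X Y : GroupClass) : GroupClass := fun G _ =>
  Finite G ∧ Group.IsSolvable G ∧ ∃ (N : Subgroup G) (_ : N.Normal), X N ∧ Y (G ⧸ N)

/-- `H` is a maximal `X`-subgroup of `G`. -/
def IsMaxSub (X : GroupClass) {G : Type} [Group G] (H : Subgroup G) : Prop :=
  X H ∧ ∀ K : Subgroup G, H ≤ K → X K → K = H

/-- `H` is an `X`-projector of `G`: for every normal subgroup `N` of `G` the image `HN/N` is a
maximal `X`-subgroup of `G/N`. -/
def IsProj (X : GroupClass) {G : Type} [Group G] (H : Subgroup G) : Prop :=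
  ∀ (N : Subgroup G) [N.Normal], IsMaxSub X (H.map (QuotientGroup.mk' N))

/-- `X` is a D-class: a Schunck class such that in every finite soluble group every maximal
`X`-subgroup is an `X`-projector. -/
def IsDClass (X : GroupClass) : Prop :=
  IsSchunck X ∧ ∀ (G : Type) [Group G] [Finite G], Group.IsSolvable G →
    ∀ H : Subgroup G, IsMaxSub X H → IsProj X H

/-! ### The group of order 150 -/

/-- the plane over `F_5` -/
abbrev Pl := ZMod 5 × ZMod 5

/-- an automorphism of order three -/
def rot (v : Pl) : Pl := (-v.2, v.1 - v.2)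

/-- action of the dihedral group of order six on the plane -/
def act : DihedralGroup 3 → Pl → Pl
  | DihedralGroup.r i, v => rot^[i.val] v
  | DihedralGroup.sr i, v => (rot^[i.val] v).swap

lemma act_add (q : DihedralGroup 3) (v w : Pl) : act q (v + w) = act q v + act q w := by
  revert v w
  revert q
  decide +kernel

lemma act_mul (p q : DihedralGroup 3) (v : Pl) : act (p * q) v = act p (act q v) := by
  revert v
  revert p q
  decide +kernel

lemma act_one (v : Pl) : act 1 v = v := by
  revert v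
  decide +kernel

lemma act_zero (q : DihedralGroup 3) : act q 0 = 0 := by
  revert q
  decide +kernel

/-- The group of order 150: the semidirect product of the plane over `F_5` with the dihedral
group of order six. -/
@[ext] structure Gp where
  v : Pl
  q : DihedralGroup 3

instance : Mul Gp := ⟨fun a b => ⟨a.v + act a.q b.v, a.q * b.q⟩⟩
instance : One Gp := ⟨⟨0, 1⟩⟩
instance : Inv Gp := ⟨fun a => ⟨-(act a.q⁻¹ a.v), a.q⁻¹⟩⟩

@[simp] lemma mul_v (a b : Gp) : (a * b).v = a.v + act a.q b.v := rfl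
@[simp] lemma mul_q (a b : Gp) : (a * b).q = a.q * b.q := rfl
@[simp] lemma one_v : (1 : Gp).v = 0 := rfl
@[simp] lemma one_q : (1 : Gp).q = 1 := rfl
@[simp] lemma inv_v (a : Gp) : (a⁻¹).v = -(act a.q⁻¹ a.v) := rfl
@[simp] lemma inv_q (a : Gp) : (a⁻¹).q = a.q⁻¹ := rfl

instance : Group Gp := Group.ofLeftAxioms
  (by
    intro a b c
    ext1
    · simp only [mul_v, mul_q, act_add, act_mul, add_assoc]
    · simp only [mul_q, mul_assoc])
  (by
    intro a
    ext1
    · simp only [mul_v, one_v, one_q, act_one, zero_add]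
    · simp only [mul_q, one_q, one_mul])
  (by
    intro a
    ext1
    · simp only [mul_v, inv_v, inv_q, one_v, neg_add_cancel]
    · simp only [mul_q, inv_q, one_q, inv_mul_cancel])

/-- forget the group structure -/
def gpEquiv : Gp ≃ Pl × DihedralGroup 3 where
  toFun g := (g.v, g.q)
  invFun p := ⟨p.1, p.2⟩
  left_inv _ := rfl
  right_inv _ := rfl

instance : Finite Gp := Finite.of_equiv _ gpEquiv.symm

lemma card_Gp : Nat.card Gp = 150 := by
  rw [Nat.card_congr gpEquiv, Nat.card_prod, Nat.card_prod, Nat.card_zmod, DihedralGroup.nat_card]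

/-- the projection onto the dihedral group -/
def pr : Gp →* DihedralGroup 3 where
  toFun g := g.q
  map_one' := rfl
  map_mul' _ _ := rfl

/-- the plane as a subgroup -/
def tr (v : Pl) : Gp := ⟨v, 1⟩

/-- the inclusion of the plane -/
def trHom : Multiplicative Pl →* Gp where
  toFun v := ⟨Multiplicative.toAdd v, 1⟩
  map_one' := rfl
  map_mul' a b := by
    ext1
    · simp only [toAdd_mul, mul_v, act_one]
    · simp only [mul_q, mul_one]

/-- the parity map of the dihedral group -/
def par : DihedralGroup 3 →* Multiplicative (ZMod 2) where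
  toFun
    | DihedralGroup.r _ => 1
    | DihedralGroup.sr _ => Multiplicative.ofAdd 1
  map_one' := rfl
  map_mul' := by decide +kernel

/-- rotations -/
def rotHom : Multiplicative (ZMod 3) →* DihedralGroup 3 where
  toFun i := DihedralGroup.r (Multiplicative.toAdd i)
  map_one' := rfl
  map_mul' _ _ := by
    rw [toAdd_mul, DihedralGroup.r_mul_r]

instance : Group.IsSolvable (DihedralGroup 3) := by
  apply Group.isSolvable_of_ker_le_range rotHom par
  intro x hx
  rw [MonoidHom.mem_ker] at hx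
  match x, hx with
  | DihedralGroup.r i, _ => exact ⟨Multiplicative.ofAdd i, rfl⟩
  | DihedralGroup.sr i, h =>
    have : (Multiplicative.ofAdd (1 : ZMod 2)) = 1 := h
    exact absurd this (by decide)

instance : Group.IsSolvable Gp := by
  apply Group.isSolvable_of_ker_le_range trHom pr
  intro x hx
  rw [MonoidHom.mem_ker] at hx
  exact ⟨Multiplicative.ofAdd x.v, by
    ext1
    · rfl
    · exact hx.symm⟩

/-- The subgroup of order 75. -/
def Ks : Subgroup Gp := (par.comp pr).ker

/-- The normal subgroup of order 25. -/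
def Vs : Subgroup Gp := pr.ker

instance : Vs.Normal := by unfold Vs; infer_instance

lemma mem_Vs {g : Gp} : g ∈ Vs ↔ g.q = 1 := Iff.rfl

lemma mem_Ks {g : Gp} : g ∈ Ks ↔ ∃ i, g.q = DihedralGroup.r i := by
  change par g.q = 1 ↔ _
  generalize g.q = q
  revert q
  decide +kernel

/-- the rotation as an element of the group -/
def cc : Gp := ⟨0, DihedralGroup.r 1⟩

lemma cc_mem : cc ∈ Ks := mem_Ks.mpr ⟨1, rfl⟩

lemma Vs_le_Ks : Vs ≤ Ks := by
  intro g hg
  exact mem_Ks.mpr ⟨0, hg⟩

lemma span_plane (v w : Pl) (hv : v ≠ 0) : ∃ a b : ZMod 5, w = (a.val) • v + (b.val) • rot v := by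
  revert v w
  decide +kernel

lemma moves (q : DihedralGroup 3) (hq : q ≠ 1) : ∃ v : Pl, act q v - v ≠ 0 := by
  revert q
  decide +kernel

lemma tr_pow (v : Pl) (n : ℕ) : (tr v) ^ n = tr (n • v) := by
  induction n with
  | zero =>
    ext1
    · simp [tr]
    · simp [tr]
  | succ n ih =>
    rw [pow_succ, ih]
    ext1
    · simp only [tr, mul_v, act_one]
      rw [succ_nsmul]
    · simp [tr]

lemma conj_cc (v : Pl) : cc * tr v * cc⁻¹ = tr (rot v) := by
  ext1
  · simp only [cc, tr, mul_v, mul_q, inv_v]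
    rw [act_zero]
    simp only [neg_zero, act_zero, zero_add, add_zero]
    rfl
  · simp [cc, tr]

/-- A nontrivial subgroup normalised by `Ks` contains `Vs`. -/
lemma Vs_le_of_normalised {N : Subgroup Gp} (hN : N ≠ ⊥)
    (hn : ∀ k ∈ Ks, ∀ n ∈ N, k * n * k⁻¹ ∈ N) : Vs ≤ N := by
  -- a nontrivial translation in `N`
  have h1 : ∃ v : Pl, v ≠ 0 ∧ tr v ∈ N := by
    obtain ⟨n, hnN, hn1⟩ := N.bot_or_exists_ne_one.resolve_left hN
    by_cases hq : n.q = 1
    · refine ⟨n.v, ?_, ?_⟩
      · intro h0
        apply hn1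
        ext1
        · exact h0
        · exact hq
      · have : tr n.v = n := by
          ext1
          · rfl
          · exact hq.symm
        rw [this]; exact hnN
    · obtain ⟨v, hv⟩ := moves n.q hq
      refine ⟨act n.q v - v, hv, ?_⟩
      have h2 : n * (tr v * n⁻¹ * (tr v)⁻¹) ∈ N := by
        apply N.mul_mem hnN
        exact hn (tr v) (Vs_le_Ks rfl) _ (N.inv_mem hnN)
      have h3 : n * (tr v * n⁻¹ * (tr v)⁻¹) = tr (act n.q v - v) := by
        have e1 : act n.q (-act n.q⁻¹ n.v) = - n.v := by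
          have h4 : act n.q (-act n.q⁻¹ n.v) + act n.q (act n.q⁻¹ n.v) = 0 := by
            rw [← act_add, neg_add_cancel, act_zero]
          rw [← act_mul, mul_inv_cancel, act_one] at h4
          exact eq_neg_of_add_eq_zero_left h4
        ext1
        · simp only [tr, mul_v, mul_q, inv_v, inv_q, act_one, inv_one, one_mul, act_add, e1]
          rw [← act_mul, mul_inv_cancel, act_one]
          abel
        · simp [tr]
      rw [← h3]; exact h2
  obtain ⟨v, hv, hvN⟩ := h1
  have h2 : tr (rot v) ∈ N := by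
    rw [← conj_cc]
    exact hn cc cc_mem _ hvN
  intro g hg
  obtain ⟨a, b, hab⟩ := span_plane v g.v hv
  have : g = (tr v) ^ a.val * (tr (rot v)) ^ b.val := by
    rw [tr_pow, tr_pow]
    ext1
    · simp only [tr, mul_v, act_one]
      exact hab
    · simp only [tr, mul_q, mul_one]
      exact hg
  rw [this]
  exact N.mul_mem (N.pow_mem hvN _) (N.pow_mem h2 _)


/-! ### The Schunck class -/

/-- The class: finite soluble groups without epimorphic images isomorphic to the cyclic group of
order `5`, to `Ks` (order `75`) or to `Gp` (order `150`). -/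
def XX : GroupClass := fun R _ =>
  Finite R ∧ Group.IsSolvable R ∧ (∀ f : R →* Multiplicative (ZMod 5), ¬ Function.Surjective f) ∧
    (∀ f : R →* Ks, ¬ Function.Surjective f) ∧ (∀ f : R →* Gp, ¬ Function.Surjective f)

lemma XX_of_surj {R S : Type} [Group R] [Group S] (g : R →* S) (hg : Function.Surjective g)
    (h : XX R) : XX S := by
  obtain ⟨h1, h2, h3, h4, h5⟩ := h
  refine ⟨Finite.of_surjective g hg, Group.isSolvable_of_surjective hg, ?_, ?_, ?_⟩
  · intro f hf
    exact h3 (f.comp g) (hf.comp hg)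
  · intro f hf
    exact h4 (f.comp g) (hf.comp hg)
  · intro f hf
    exact h5 (f.comp g) (hf.comp hg)

lemma isPrim_transport {A B : Type} [Group A] [Group B] (e : A ≃* B) (h : IsPrim A) :
    IsPrim B := by
  obtain ⟨M, hM, hc⟩ := h
  refine ⟨M.map e.toMonoidHom, ?_, ?_⟩
  · have := (OrderIso.isCoatom_iff (e.mapSubgroup) M).mpr hM
    exact this
  · rw [eq_bot_iff]
    intro x hx
    have h1 : e.symm x ∈ M.normalCore := by
      intro b
      have h2 := hx (e b)
      obtain ⟨m, hm, hm2⟩ := h2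
      have h3 : b * e.symm x * b⁻¹ = m := by
        apply e.injective
        rw [map_mul, map_mul, map_inv, e.apply_symm_apply]
        exact hm2.symm
      rw [h3]; exact hm
    rw [hc, Subgroup.mem_bot] at h1
    rw [Subgroup.mem_bot]
    have := congrArg e h1
    rwa [e.apply_symm_apply, map_one] at this

lemma isPrim_z5 : IsPrim (Multiplicative (ZMod 5)) := by
  have hp : Fact (Nat.Prime 5) := ⟨by norm_num⟩
  have hs : IsSimpleGroup (Multiplicative (ZMod 5)) := by
    apply isSimpleGroup_of_prime_card (p := 5)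
    simp [Nat.card_eq_fintype_card]
  exact ⟨⊥, isCoatom_bot, Subgroup.normalCore_eq_self ⊥⟩

/-- the complement of the plane in a subgroup above `Ks` -/
def cpl (L : Subgroup Gp) : Subgroup L where
  carrier := {l | (l : Gp).v = 0}
  mul_mem' := by
    intro a b ha hb
    change (a : Gp).v + act (a : Gp).q (b : Gp).v = 0
    rw [show (a : Gp).v = 0 from ha, show (b : Gp).v = 0 from hb, act_zero, add_zero]
  one_mem' := rfl
  inv_mem' := by
    intro a ha
    change -(act (a : Gp).q⁻¹ (a : Gp).v) = 0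
    rw [show (a : Gp).v = 0 from ha, act_zero, neg_zero]

lemma tr_mem {L : Subgroup Gp} (hL : Ks ≤ L) (v : Pl) : tr v ∈ L := hL (Vs_le_Ks rfl)

lemma decomp (g : Gp) : g = tr g.v * ⟨0, g.q⟩ := by
  ext1
  · simp [tr, act_zero]
  · simp [tr]

lemma isPrim_of_ge {L : Subgroup Gp} (hL : Ks ≤ L) : IsPrim L := by
  refine ⟨cpl L, ?_, ?_⟩
  · constructor
    · intro h
      have h1 : (⟨tr (1, 0), tr_mem hL _⟩ : L) ∈ cpl L := by rw [h]; trivial
      have h2 : ((1, 0) : Pl) = 0 := h1
      exact absurd h2 (by decide)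
    · intro T hT
      obtain ⟨hle, hne⟩ := SetLike.lt_iff_le_and_exists.mp hT
      obtain ⟨l, hlT, hl⟩ := hne
      have hv : (l : Gp).v ≠ 0 := hl
      -- all complements parts are in T
      have hq : ∀ g : Gp, g ∈ L → ∃ h0 : (⟨0, g.q⟩ : Gp) ∈ L, (⟨⟨0, g.q⟩, h0⟩ : L) ∈ T := by
        intro g hg
        have h1 : (⟨0, g.q⟩ : Gp) = (tr g.v)⁻¹ * g := by
          rw [eq_inv_mul_iff_mul_eq]; exact (decomp g).symm
        have h2 : (⟨0, g.q⟩ : Gp) ∈ L := by
          rw [h1]; exact L.mul_mem (L.inv_mem (tr_mem hL _)) hg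
        exact ⟨h2, hle rfl⟩
      have hcc : (⟨cc, hL cc_mem⟩ : L) ∈ T := hle rfl
      obtain ⟨h0, h0T⟩ := hq l l.2
      have htv : (⟨tr (l : Gp).v, tr_mem hL _⟩ : L) ∈ T := by
        have : (⟨tr (l : Gp).v, tr_mem hL _⟩ : L) = l * (⟨⟨0, (l : Gp).q⟩, h0⟩ : L)⁻¹ := by
          apply Subtype.ext
          change tr (l : Gp).v = (l : Gp) * (⟨0, (l : Gp).q⟩ : Gp)⁻¹
          rw [eq_mul_inv_iff_mul_eq]; exact (decomp _).symm
        rw [this]
        exact T.mul_mem hlT (T.inv_mem h0T)
      have htv2 : (⟨tr (rot (l : Gp).v), tr_mem hL _⟩ : L) ∈ T := by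
        have : (⟨tr (rot (l : Gp).v), tr_mem hL _⟩ : L)
            = ⟨cc, hL cc_mem⟩ * ⟨tr (l : Gp).v, tr_mem hL _⟩ * (⟨cc, hL cc_mem⟩ : L)⁻¹ := by
          apply Subtype.ext
          exact (conj_cc _).symm
        rw [this]
        exact T.mul_mem (T.mul_mem hcc htv) (T.inv_mem hcc)
      rw [eq_top_iff]
      rintro g -
      obtain ⟨a, b, hab⟩ := span_plane (l : Gp).v (g : Gp).v hv
      obtain ⟨g0, g0T⟩ := hq g g.2
      have : g = (⟨tr (l : Gp).v, tr_mem hL _⟩ : L) ^ a.val *
          (⟨tr (rot (l : Gp).v), tr_mem hL _⟩ : L) ^ b.val * ⟨⟨0, (g : Gp).q⟩, g0⟩ := by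
        apply Subtype.ext
        change (g : Gp) = (tr (l : Gp).v) ^ a.val * (tr (rot (l : Gp).v)) ^ b.val
          * (⟨0, (g : Gp).q⟩ : Gp)
        rw [tr_pow, tr_pow]
        ext1
        · simp only [tr, mul_v, mul_q, act_one, act_zero, add_zero]
          exact hab
        · simp only [tr, mul_q, one_mul]
      rw [this]
      exact T.mul_mem (T.mul_mem (T.pow_mem htv _) (T.pow_mem htv2 _)) g0T
  · by_contra hne
    have h1 : ((cpl L).normalCore.map L.subtype) ≠ ⊥ := by
      intro h
      apply hne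
      rw [Subgroup.map_eq_bot_iff_of_injective _ L.subtype_injective] at h
      exact h
    have h2 := Vs_le_of_normalised h1 (by
      rintro k hk _ ⟨n, hn, rfl⟩
      exact ⟨(⟨k, hL hk⟩ : L) * n * (⟨k, hL hk⟩ : L)⁻¹,
        (inferInstance : (cpl L).normalCore.Normal).conj_mem n hn _, rfl⟩)
    have h3 : tr (1, 0) ∈ (cpl L).normalCore.map L.subtype := h2 rfl
    obtain ⟨n, hn, hn2⟩ := h3
    have h4 : (n : Gp).v = 0 := (cpl L).normalCore_le hn
    have h5 : (n : Gp) = tr (1, 0) := hn2
    rw [h5] at h4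
    exact absurd h4 (by decide)


lemma isPrim_Ks : IsPrim Ks := isPrim_of_ge (le_refl _)

lemma isPrim_Gp : IsPrim Gp :=
  isPrim_transport Subgroup.topEquiv (isPrim_of_ge (L := ⊤) le_top)

lemma isSchunck_XX : IsSchunck XX where
  soluble := fun G _ h => ⟨h.1, h.2.1⟩
  iso := fun G H _ _ ⟨e⟩ h => XX_of_surj e.toMonoidHom e.surjective h
  quot := fun G _ N _ h => XX_of_surj (QuotientGroup.mk' N) (QuotientGroup.mk'_surjective N) h
  prim := by
    intro G _ _ hs hall
    have key : ∀ (Q : Type) [Group Q], IsPrim Q → (∀ R : Type, ∀ [Group R], XX R →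
        ∀ f : R →* Q, ¬ Function.Surjective f) → ∀ f : G →* Q, ¬ Function.Surjective f := by
      intro Q _ hQ hR f hf
      let e := QuotientGroup.quotientKerEquivOfSurjective f hf
      have h1 : IsPrim (G ⧸ f.ker) := isPrim_transport e.symm hQ
      have h2 := hall f.ker h1
      exact hR _ h2 e.toMonoidHom e.surjective
    refine ⟨inferInstance, hs, ?_, ?_, ?_⟩
    · exact key _ isPrim_z5 (fun R _ h => h.2.2.1)
    · exact key _ isPrim_Ks (fun R _ h => h.2.2.2.1)
    · exact key _ isPrim_Gp (fun R _ h => h.2.2.2.2)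

lemma rot_pow : ∀ i j : ZMod 3, i ≠ 0 → ∃ l ∈ Finset.range 3,
    (DihedralGroup.r i : DihedralGroup 3) ^ l = DihedralGroup.r j := by
  decide +kernel

lemma zq_pow (q : DihedralGroup 3) (l : ℕ) : (⟨0, q⟩ : Gp) ^ l = ⟨0, q ^ l⟩ := by
  induction l with
  | zero => rfl
  | succ l ih =>
    rw [pow_succ, ih]
    ext1
    · simp [act_zero]
    · simp [pow_succ]

/-- Key lemma for `X^2 = X`: the image of a normal `X`-subgroup in `Gp` is trivial. -/
lemma map_eq_bot {R : Type} [Group R] (f : R →* Gp) (hf : Ks ≤ f.range) (N : Subgroup R)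
    [N.Normal] (hN : XX N) : N.map f = ⊥ := by
  by_contra hne
  have hnorm : ∀ k ∈ Ks, ∀ n ∈ N.map f, k * n * k⁻¹ ∈ N.map f := by
    intro k hk n hn
    obtain ⟨x, rfl⟩ := hf hk
    obtain ⟨y, hy, rfl⟩ := hn
    exact ⟨x * y * x⁻¹, (inferInstance : N.Normal).conj_mem y hy x, by simp⟩
  have hV := Vs_le_of_normalised hne hnorm
  by_cases h1 : ∀ n ∈ N.map f, n.q = 1
  · -- the image is the plane
    let g : N →* Multiplicative (ZMod 5) :=
      { toFun := fun n => Multiplicative.ofAdd (f n).v.1
        map_one' := by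
          change Multiplicative.ofAdd (f 1).v.1 = 1
          rw [map_one]; rfl
        map_mul' := by
          intro a b
          change Multiplicative.ofAdd (f (a * b)).v.1 = _
          have ha : (f a).q = 1 := h1 _ ⟨a, a.2, rfl⟩
          rw [map_mul, mul_v, ha, act_one]
          rfl }
    apply hN.2.2.1 g
    intro z
    obtain ⟨n, hn, hn2⟩ := hV (show tr (Multiplicative.toAdd z, 0) ∈ Vs from rfl)
    refine ⟨⟨n, hn⟩, ?_⟩
    change Multiplicative.ofAdd (f n).v.1 = z
    rw [hn2]; rfl
  · push Not at h1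
    obtain ⟨n, hn, hnq⟩ := h1
    have key : ∀ m ∈ N.map f, ∀ i : ZMod 3, m.q = DihedralGroup.r i → i ≠ 0 → Ks ≤ N.map f := by
      intro m hm i hmi hi k hk
      obtain ⟨j, hj⟩ := mem_Ks.mp hk
      have h2 : (⟨0, m.q⟩ : Gp) ∈ N.map f := by
        have : (⟨0, m.q⟩ : Gp) = (tr m.v)⁻¹ * m := by
          rw [eq_inv_mul_iff_mul_eq]; exact (decomp m).symm
        rw [this]
        exact Subgroup.mul_mem _ (Subgroup.inv_mem _ (hV rfl)) hm
      obtain ⟨l, _, h3⟩ := rot_pow i j hi
      rw [decomp k, hj, ← h3, ← hmi, ← zq_pow]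
      exact Subgroup.mul_mem _ (hV rfl) (Subgroup.pow_mem _ h2 l)
    by_cases hpar : ∀ m ∈ N.map f, m ∈ Ks
    · -- the image is `Ks`
      have hK : Ks ≤ N.map f := by
        obtain ⟨i, hi⟩ := mem_Ks.mp (hpar n hn)
        apply key n hn i hi
        rintro rfl
        exact hnq hi
      let g : N →* Ks := (f.comp N.subtype).codRestrict Ks (fun x => hpar _ ⟨x, x.2, rfl⟩)
      apply hN.2.2.2.1 g
      intro z
      obtain ⟨x, hx, hx2⟩ := hK z.2
      exact ⟨⟨x, hx⟩, Subtype.ext hx2⟩
    · -- the image is everything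
      push Not at hpar
      obtain ⟨m, hm, hmK⟩ := hpar
      have hms : ∃ i, m.q = DihedralGroup.sr i := by
        cases hq : m.q with
        | r i => exact absurd (mem_Ks.mpr ⟨i, hq⟩) hmK
        | sr i => exact ⟨i, rfl⟩
      obtain ⟨i, hi⟩ := hms
      have hK : Ks ≤ N.map f := by
        have hc : cc * m * cc⁻¹ * m⁻¹ ∈ N.map f :=
          Subgroup.mul_mem _ (hnorm cc cc_mem m hm) (Subgroup.inv_mem _ hm)
        apply key _ hc 2 ?_ (by decide)
        simp only [mul_q, inv_q, hi, cc]
        clear hi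
        revert i
        decide +kernel
      let g : N →* Gp := f.comp N.subtype
      apply hN.2.2.2.2 g
      intro z
      have hz : z ∈ N.map f := by
        by_cases hzK : z ∈ Ks
        · exact hK hzK
        · have hzs : ∃ j, z.q = DihedralGroup.sr j := by
            cases hq : z.q with
            | r j => exact absurd (mem_Ks.mpr ⟨j, hq⟩) hzK
            | sr j => exact ⟨j, rfl⟩
          obtain ⟨j, hj⟩ := hzs
          have h5 : z * m⁻¹ ∈ Ks := by
            rw [mem_Ks]
            refine ⟨i - j, ?_⟩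
            simp only [mul_q, inv_q, hi, hj, DihedralGroup.inv_sr, DihedralGroup.sr_mul_sr]
          have h6 : z = z * m⁻¹ * m := by group
          rw [h6]
          exact Subgroup.mul_mem _ (hK h5) hm
      obtain ⟨x, hx, hx2⟩ := hz
      exact ⟨⟨x, hx⟩, hx2⟩

lemma five_map {R : Type} [Group R] (f : R →* Multiplicative (ZMod 5))
    (hf : Function.Surjective f) (N : Subgroup R) [hNn : N.Normal] (hN : XX N) : N.map f = ⊥ := by
  have hp : Fact (Nat.Prime 5) := ⟨by norm_num⟩
  have hs : IsSimpleGroup (Multiplicative (ZMod 5)) := by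
    apply isSimpleGroup_of_prime_card (p := 5)
    simp [Nat.card_eq_fintype_card]
  rcases (hNn.map f hf).eq_bot_or_eq_top with h | h
  · exact h
  · exfalso
    apply hN.2.2.1 (f.comp N.subtype)
    intro z
    have : z ∈ N.map f := by rw [h]; trivial
    obtain ⟨x, hx, hx2⟩ := this
    exact ⟨⟨x, hx⟩, hx2⟩

/-- descend an epimorphism to a quotient -/
lemma descend {R Q : Type} [Group R] [Group Q] (N : Subgroup R) [N.Normal] (f : R →* Q)
    (hf : Function.Surjective f) (h : N.map f = ⊥) :
    ∃ g : R ⧸ N →* Q, Function.Surjective g := by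
  have hk : N ≤ f.ker := by
    intro x hx
    rw [MonoidHom.mem_ker, ← Subgroup.mem_bot, ← h]
    exact ⟨x, hx, rfl⟩
  refine ⟨QuotientGroup.lift N f hk, ?_⟩
  intro z
  obtain ⟨x, rfl⟩ := hf z
  exact ⟨(x : R ⧸ N), rfl⟩

lemma XX_ext {R : Type} [Group R] (h : prodClass XX XX R) : XX R := by
  obtain ⟨h1, h2, N, hNn, hN, hQ⟩ := h
  refine ⟨h1, h2, ?_, ?_, ?_⟩
  · intro f hf
    obtain ⟨g, hg⟩ := descend N f hf (five_map f hf N hN)
    exact hQ.2.2.1 g hg
  · intro f hf
    have h3 : N.map (Ks.subtype.comp f) = ⊥ := by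
      apply map_eq_bot _ _ N hN
      intro k hk
      obtain ⟨x, hx⟩ := hf ⟨k, hk⟩
      exact ⟨x, by rw [MonoidHom.comp_apply, hx]; rfl⟩
    have h4 : N.map f = ⊥ := by
      rw [← Subgroup.map_map] at h3
      exact (Subgroup.map_eq_bot_iff_of_injective _ Ks.subtype_injective).mp h3
    obtain ⟨g, hg⟩ := descend N f hf h4
    exact hQ.2.2.2.1 g hg
  · intro f hf
    have h3 : N.map f = ⊥ := by
      apply map_eq_bot _ _ N hN
      intro k _
      exact hf k
    obtain ⟨g, hg⟩ := descend N f hf h3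
    exact hQ.2.2.2.2 g hg

lemma card_Ks : Nat.card Ks = 75 := by
  have h1 := Subgroup.card_mul_index Ks
  have h2 : Ks.index = 2 := by
    unfold Ks
    rw [Subgroup.index_ker]
    have h3 : (par.comp pr).range = ⊤ := by
      rw [MonoidHom.range_eq_top]
      intro z
      have : ∃ q : DihedralGroup 3, par q = z := by
        revert z
        decide +kernel
      obtain ⟨q, hq⟩ := this
      exact ⟨⟨0, q⟩, hq⟩
    rw [h3, Subgroup.card_top]
    simp [Nat.card_eq_fintype_card]
  rw [h2, card_Gp] at h1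
  omega

/-- Finite soluble groups of order prime to five belong to the class. -/
lemma XX_of_card {R : Type} [Group R] [Finite R] (hs : Group.IsSolvable R)
    (h : ¬ 5 ∣ Nat.card R) : XX R := by
  have key : ∀ (Q : Type) [Group Q], 5 ∣ Nat.card Q → ∀ f : R →* Q, ¬ Function.Surjective f := by
    intro Q _ hQ f hf
    exact h (hQ.trans (Subgroup.card_dvd_of_surjective f hf))
  refine ⟨inferInstance, hs, key _ ?_, key _ ?_, key _ ?_⟩
  · simp [Nat.card_eq_fintype_card]
  · rw [card_Ks]; norm_num
  · rw [card_Gp]; norm_num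

lemma XX_trivial {R : Type} [Group R] [Subsingleton R] : XX R := by
  apply XX_of_card
  · infer_instance
  · rw [Nat.card_unique]; norm_num

lemma prod_XX (R : Type) [Group R] : prodClass XX XX R ↔ XX R := by
  constructor
  · exact XX_ext
  · intro h
    refine ⟨h.1, h.2.1, ⊥, inferInstance, XX_trivial, ?_⟩
    exact XX_of_surj (QuotientGroup.mk' ⊥) (QuotientGroup.mk'_surjective ⊥) h

/-- the dihedral subgroup of order ten -/
def Dh : Subgroup Gp where
  carrier := {g | g.v.1 + g.v.2 = 0 ∧ (g.q = 1 ∨ g.q = DihedralGroup.sr 0)}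
  mul_mem' := by
    rintro a b ⟨h1, h2⟩ ⟨h3, h4⟩
    constructor
    · rcases h2 with h2 | h2
      · change (a.v + act a.q b.v).1 + (a.v + act a.q b.v).2 = 0
        rw [h2, act_one, Prod.fst_add, Prod.snd_add]
        calc a.v.1 + b.v.1 + (a.v.2 + b.v.2) = (a.v.1 + a.v.2) + (b.v.1 + b.v.2) := by ring
          _ = 0 := by rw [h1, h3, add_zero]
      · change (a.v + act a.q b.v).1 + (a.v + act a.q b.v).2 = 0
        have h5 : act a.q b.v = (b.v.2, b.v.1) := by rw [h2]; rfl
        rw [h5, Prod.fst_add, Prod.snd_add]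
        calc a.v.1 + b.v.2 + (a.v.2 + b.v.1) = (a.v.1 + a.v.2) + (b.v.1 + b.v.2) := by ring
          _ = 0 := by rw [h1, h3, add_zero]
    · rw [mul_q]
      rcases h2 with h2 | h2 <;> rcases h4 with h4 | h4 <;> rw [h2, h4] <;> decide
  one_mem' := by
    constructor
    · rfl
    · left; rfl
  inv_mem' := by
    rintro a ⟨h1, h2⟩
    constructor
    · rcases h2 with h2 | h2
      · change (-(act a.q⁻¹ a.v)).1 + (-(act a.q⁻¹ a.v)).2 = 0
        rw [h2, inv_one, act_one, Prod.fst_neg, Prod.snd_neg]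
        calc -a.v.1 + -a.v.2 = -(a.v.1 + a.v.2) := by ring
          _ = 0 := by rw [h1, neg_zero]
      · change (-(act a.q⁻¹ a.v)).1 + (-(act a.q⁻¹ a.v)).2 = 0
        have h5 : act a.q⁻¹ a.v = (a.v.2, a.v.1) := by rw [h2]; rfl
        rw [h5, Prod.fst_neg, Prod.snd_neg]
        calc -a.v.2 + -a.v.1 = -(a.v.1 + a.v.2) := by ring
          _ = 0 := by rw [h1, neg_zero]
    · rw [inv_q]
      rcases h2 with h2 | h2 <;> rw [h2] <;> decide

lemma mem_Dh {g : Gp} : g ∈ Dh ↔ g.v.1 + g.v.2 = 0 ∧ (g.q = 1 ∨ g.q = DihedralGroup.sr 0) :=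
  Iff.rfl

lemma card_Dh_le : Nat.card Dh ≤ 30 := by
  have h1 : Nat.card Dh ≤ Nat.card (ZMod 5 × DihedralGroup 3) := by
    apply Nat.card_le_card_of_injective (fun g : Dh => ((g : Gp).v.1, (g : Gp).q))
    intro a b h
    simp only [Prod.mk.injEq] at h
    apply Subtype.ext
    ext1
    · apply Prod.ext
      · exact h.1
      · have ha := (mem_Dh.mp a.2).1
        have hb := (mem_Dh.mp b.2).1
        have h3 : (a : Gp).v.1 + (a : Gp).v.2 = (a : Gp).v.1 + (b : Gp).v.2 := by
          rw [ha, h.1, hb]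
        exact add_left_cancel h3
    · exact h.2
  rw [Nat.card_prod, Nat.card_zmod, DihedralGroup.nat_card] at h1
  exact h1

lemma sq_five (z : Multiplicative (ZMod 5)) (h : z * z = 1) : z = 1 := by
  revert z
  decide +kernel

lemma XX_Dh : XX Dh := by
  refine ⟨inferInstance, inferInstance, ?_, ?_, ?_⟩
  · intro f hf
    have hinv : ∀ g : Dh, (g : Gp).q = DihedralGroup.sr 0 → f g = 1 := by
      intro g hg
      apply sq_five
      rw [← map_mul]
      have : g * g = 1 := by
        apply Subtype.ext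
        have hv := (mem_Dh.mp g.2).1
        change (g : Gp) * (g : Gp) = 1
        ext1
        · rw [mul_v, hg]
          change (g : Gp).v + ((g : Gp).v.2, (g : Gp).v.1) = 0
          apply Prod.ext
          · exact hv
          · change (g : Gp).v.2 + (g : Gp).v.1 = 0
            rw [add_comm]; exact hv
        · rw [mul_q, hg]; decide
      rw [this, map_one]
    have hall : ∀ g : Dh, f g = 1 := by
      intro g
      rcases (mem_Dh.mp g.2).2 with hq | hq
      · let t : Dh := ⟨⟨0, DihedralGroup.sr 0⟩, by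
          rw [mem_Dh]; exact ⟨by decide, Or.inr rfl⟩⟩
        have h1 : f t = 1 := hinv t rfl
        have h2 : f (g * t) = 1 := by
          apply hinv
          change (g : Gp).q * DihedralGroup.sr 0 = DihedralGroup.sr 0
          rw [hq, one_mul]
        rw [map_mul, h1, mul_one] at h2
        exact h2
      · exact hinv g hq
    obtain ⟨g, hg⟩ := hf (Multiplicative.ofAdd 1)
    rw [hall g] at hg
    exact absurd hg (by decide)
  · intro f hf
    have h1 := Nat.card_le_card_of_surjective f hf
    rw [card_Ks] at h1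
    have := card_Dh_le
    omega
  · intro f hf
    have h1 := Nat.card_le_card_of_surjective f hf
    rw [card_Gp] at h1
    have := card_Dh_le
    omega

lemma XX_quot : XX (Gp ⧸ Vs) := by
  apply XX_of_card
  · infer_instance
  · have h1 : Nat.card (Gp ⧸ Vs) = 6 := by
      have e : Gp ⧸ Vs ≃* DihedralGroup 3 :=
        QuotientGroup.quotientKerEquivOfSurjective pr (fun q => ⟨⟨0, q⟩, rfl⟩)
      rw [Nat.card_congr e.toEquiv, DihedralGroup.nat_card]
    rw [h1]; norm_num

/-- There is a Schunck class `X` with `X^2 = X` and a finite soluble group having a maximal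
`X`-subgroup which is not an `X`-projector. -/
theorem result : ∃ X : GroupClass, IsSchunck X ∧
    (∀ (G : Type) [Group G], prodClass X X G ↔ X G) ∧ ¬ IsDClass X := by
  refine ⟨XX, isSchunck_XX, fun R _ => prod_XX R, ?_⟩
  rintro ⟨_, hD⟩
  -- a maximal `X`-subgroup above `Dh`
  have hfin : {K : Subgroup Gp | XX K}.Finite := Set.toFinite _
  obtain ⟨E, hDE, hE⟩ := hfin.exists_le_maximal (a := Dh) XX_Dh
  have hEmax : IsMaxSub XX E := by
    refine ⟨hE.prop, ?_⟩
    intro K hK hXK
    exact le_antisymm (hE.le_of_ge hXK hK) hK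
  have hproj := hD Gp inferInstance E hEmax
  have h1 := hproj Vs
  have h2 : (⊤ : Subgroup (Gp ⧸ Vs)) = E.map (QuotientGroup.mk' Vs) := by
    apply h1.2 ⊤ le_top
    exact XX_of_surj (Subgroup.topEquiv (G := Gp ⧸ Vs)).symm.toMonoidHom
      (Subgroup.topEquiv (G := Gp ⧸ Vs)).symm.surjective XX_quot
  -- the intersection with the plane
  have hdec : ∀ g : Gp, ∃ e ∈ E, ∃ v ∈ Vs, g = e * v := by
    intro g
    have : (g : Gp ⧸ Vs) ∈ E.map (QuotientGroup.mk' Vs) := by rw [← h2]; trivial
    obtain ⟨e, he, he2⟩ := this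
    refine ⟨e, he, e⁻¹ * g, ?_, by group⟩
    exact QuotientGroup.eq.mp he2
  have hne : E ⊓ Vs ≠ ⊥ := by
    intro h
    have h3 : tr (1, -1) ∈ E ⊓ Vs := by
      refine ⟨hDE ?_, rfl⟩
      rw [mem_Dh]
      exact ⟨by decide, Or.inl rfl⟩
    rw [h, Subgroup.mem_bot] at h3
    have h4 := congrArg Gp.v h3
    exact absurd h4 (by decide)
  have hVab : ∀ a ∈ Vs, ∀ b ∈ Vs, a * b = b * a := by
    intro a ha b hb
    have ha' : a.q = 1 := ha
    have hb' : b.q = 1 := hb
    ext1
    · rw [mul_v, mul_v, ha', hb', act_one, act_one, add_comm]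
    · rw [mul_q, mul_q, ha', hb']
  have hVE : Vs ≤ E ⊓ Vs := by
    apply Vs_le_of_normalised hne
    rintro k - n ⟨hnE, hnV⟩
    obtain ⟨e, he, v, hv, rfl⟩ := hdec k
    have h3 : e * v * n * (e * v)⁻¹ = e * n * e⁻¹ := by
      calc e * v * n * (e * v)⁻¹ = e * (v * n) * v⁻¹ * e⁻¹ := by group
        _ = e * (n * v) * v⁻¹ * e⁻¹ := by rw [hVab v hv n hnV]
        _ = e * n * e⁻¹ := by group
    rw [h3]
    refine ⟨E.mul_mem (E.mul_mem he hnE) (E.inv_mem he), ?_⟩
    exact (inferInstance : Vs.Normal).conj_mem n hnV e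
  have hEtop : E = ⊤ := by
    rw [eq_top_iff]
    rintro g -
    obtain ⟨e, he, v, hv, rfl⟩ := hdec g
    exact E.mul_mem he (hVE hv).1
  have hX := hE.prop
  rw [hEtop] at hX
  exact hX.2.2.2.2 (Subgroup.topEquiv (G := Gp)).toMonoidHom
    (Subgroup.topEquiv (G := Gp)).surjective

end Pool.Agent.Results.MP_d8b6f8_al.NotDClass
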